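import Pool.Agent.Helper19.HV.StC

/-!
# Project HV: module QIN (injectivity on cohomology)
-/

set_option autoImplicit false

namespace Pool.Agent.Helper19.HV

noncomputable section

open PL

/-- The general step of the chase: the equation `d a' = c s₁ + ∑ m s₂` and `a' = c z' + ∑ m y' + d w''`. -/
private theorem qin_step {F : Type} [Field F] {X : Set (P1 F)} (hI : sIIM)
    {d : Dif (RatFunc F)} {d' : Dif F} {r : Res F X}
    {c : ∀ k j : ℕ, Γ F k j →ₗ[ℚ] Γ (RatFunc F) k j}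
    {m : ∀ (_ : F) (k j : ℕ), Γ F k j →ₗ[ℚ] Γ (RatFunc F) k (j + 1)}
    (hR : Rel d d' r c m) (k j : ℕ) (s1 : Γ F k (j + 2)) (s2 : Co X →₀ Γ F k (j + 1))
    (a' : Γ (RatFunc F) (k + 1) (j + 1))
    (ha : d k (j + 1) a' = c k (j + 2) s1 + s2.sum fun a y => m a.1 k (j + 1) y)
    (w : Γ (RatFunc F) (k + 2) j) (hw : a' - d (k + 1) j w ∈ II c m (k + 1) (j + 1)) :
    ∃ (z' : Γ F (k + 1) (j + 1)) (y' : Co X →₀ Γ F (k + 1) j),
      d' k (j + 1) z' = s1 ∧ Finsupp.mapRange.linearMap (d' k j) y' = s2 := by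
  obtain ⟨z, y, hzy⟩ := (hI F c m (k + 1) j _).1 hw
  set ys : F →₀ Γ F k (j + 1) :=
    Finsupp.embDomain (Function.Embedding.subtype fun a : F => some a ∉ X) s2 with hys
  have e1 : ys.sum (fun a y => m a k (j + 1) y) = s2.sum fun a y => m a.1 k (j + 1) y := by
    rw [hys, Finsupp.sum_embDomain]
    rfl
  have e2 : d k (j + 1) a' = c k (j + 2) (d' k (j + 1) z) +
      (Finsupp.mapRange.linearMap (d' k j) y).sum (fun a y => m a k (j + 1) y) := by
    have h1 : a' = d (k + 1) j w + (c (k + 1) (j + 1) z + y.sum fun a y => m a (k + 1) j y) := by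
      rw [← hzy]
      abel
    rw [h1, map_add, map_add, hR.dd, zero_add, hR.dc, map_finsuppSum]
    congr 1
    have h2 : (Finsupp.mapRange.linearMap (d' k j) y).sum (fun a y => m a k (j + 1) y) =
        y.sum fun a y => m a k (j + 1) (d' k j y) := by
      rw [Finsupp.mapRange.linearMap_apply, Finsupp.sum_mapRange_index]
      intro a
      exact map_zero _
    rw [h2]
    apply Finsupp.sum_congr
    intro a _
    exact hR.dm a k j _
  have e3 : c k (j + 2) (s1 - d' k (j + 1) z) +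
      (ys - Finsupp.mapRange.linearMap (d' k j) y).sum (fun a y => m a k (j + 1) y) = 0 := by
    rw [map_sub, Finsupp.sum_sub_index (fun a b₁ b₂ => map_sub _ _ _), e1]
    have h3 : c k (j + 2) s1 + (s2.sum fun a y => m a.1 k (j + 1) y) =
        c k (j + 2) (d' k (j + 1) z) +
        (Finsupp.mapRange.linearMap (d' k j) y).sum (fun a y => m a k (j + 1) y) := by
      rw [← ha, e2]
    have h4 : c k (j + 2) s1 - c k (j + 2) (d' k (j + 1) z) +
        ((s2.sum fun a y => m a.1 k (j + 1) y) -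
        (Finsupp.mapRange.linearMap (d' k j) y).sum (fun a y => m a k (j + 1) y)) =
        (c k (j + 2) s1 + (s2.sum fun a y => m a.1 k (j + 1) y)) -
        (c k (j + 2) (d' k (j + 1) z) +
        (Finsupp.mapRange.linearMap (d' k j) y).sum (fun a y => m a k (j + 1) y)) := by abel
    rw [h4, h3, sub_self]
  obtain ⟨f1, f2⟩ := hR.cmi k (j + 1) _ _ e3
  refine ⟨z, Finsupp.subtypeDomain (fun a : F => some a ∉ X) y, (sub_eq_zero.1 f1).symm, ?_⟩
  ext a : 1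
  have g1 := DFunLike.congr_fun (sub_eq_zero.1 f2) a.1
  have g2 : ys a.1 = s2 a := Finsupp.embDomain_apply_self
    (Function.Embedding.subtype fun a : F => some a ∉ X) s2 a
  rw [← g2, g1]
  rfl

/-- The first step (`k = 3`, `j = 1`). -/
private theorem qin_one {F : Type} [Field F] {X : Set (P1 F)}
    {d : Dif (RatFunc F)} {d' : Dif F} {r : Res F X}
    {c : ∀ k j : ℕ, Γ F k j →ₗ[ℚ] Γ (RatFunc F) k j}
    {m : ∀ (_ : F) (k j : ℕ), Γ F k j →ₗ[ℚ] Γ (RatFunc F) k (j + 1)}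
    (hR : Rel d d' r c m) (k : ℕ) (s1 : Γ F k 1) (s2 : Co X →₀ Γ F k 0)
    (z : Γ F (k + 1) 0)
    (ha : d k 0 (c (k + 1) 0 z) = c k 1 s1 + s2.sum fun a y => m a.1 k 0 y) :
    d' k 0 z = s1 ∧ s2 = 0 := by
  set ys : F →₀ Γ F k 0 :=
    Finsupp.embDomain (Function.Embedding.subtype fun a : F => some a ∉ X) s2 with hys
  have e1 : ys.sum (fun a y => m a k 0 y) = s2.sum fun a y => m a.1 k 0 y := by
    rw [hys, Finsupp.sum_embDomain]
    rfl
  have e3 : c k 1 (s1 - d' k 0 z) + ys.sum (fun a y => m a k 0 y) = 0 := by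
    rw [map_sub, e1, ← hR.dc, ha]
    abel
  obtain ⟨f1, f2⟩ := hR.cmi k 0 _ _ e3
  refine ⟨(sub_eq_zero.1 f1).symm, ?_⟩
  ext a : 1
  have g1 := DFunLike.congr_fun f2 a.1
  have g2 : ys a.1 = s2 a := Finsupp.embDomain_apply_self
    (Function.Embedding.subtype fun a : F => some a ∉ X) s2 a
  rw [← g2, g1]
  rfl

/-- Membership in `II` of `c s₁ + ∑ m s₂`. -/
private theorem qin_mem {F : Type} [Field F] {X : Set (P1 F)} (hI : sIIM)
    {c : ∀ k j : ℕ, Γ F k j →ₗ[ℚ] Γ (RatFunc F) k j}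
    {m : ∀ (_ : F) (k j : ℕ), Γ F k j →ₗ[ℚ] Γ (RatFunc F) k (j + 1)}
    (k j : ℕ) (s1 : Γ F k (j + 1)) (s2 : Co X →₀ Γ F k j) :
    (c k (j + 1) s1 + s2.sum fun a y => m a.1 k j y) ∈ II c m k (j + 1) := by
  rw [hI F c m k j]
  refine ⟨s1, Finsupp.embDomain (Function.Embedding.subtype fun a : F => some a ∉ X) s2, ?_⟩
  rw [Finsupp.sum_embDomain]
  rfl

theorem mQIN : sIIM → sQIN := by
  intro hI F _ X _ d d' r c m hR hE k j hkj s _ hB
  have hj : j = 0 ∨ j = 1 ∨ j = 2 ∨ j = 3 ∨ j = 4 := by omega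
  rcases hj with rfl | rfl | rfl | rfl | rfl
  · obtain rfl : k = 4 := by omega
    have h1 : c 4 0 s = 0 := hB
    exact hR.ci 4 0 s h1
  · obtain rfl : k = 3 := by omega
    obtain ⟨w', hw'⟩ := hB
    obtain ⟨s1, s2⟩ := s
    have h1 : d 3 0 w' = c 3 1 s1 + s2.sum fun a y => m a.1 3 0 y := hw'
    have h2 : w' ∈ II c m 4 0 := hE.e4 w' (by rw [h1]; exact qin_mem hI 3 0 s1 s2)
    obtain ⟨z, hz⟩ := h2
    have h3 : c 4 0 z = w' := hz
    rw [← h3] at h1
    obtain ⟨f1, f2⟩ := qin_one hR 3 s1 s2 z h1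
    refine ⟨z, ?_⟩
    show (d' 3 0 z, (0 : Co X →₀ Γ F 3 0)) = (s1, s2)
    rw [f1, f2]
  · obtain rfl : k = 2 := by omega
    obtain ⟨w', hw'⟩ := hB
    obtain ⟨s1, s2⟩ := s
    have h1 : d 2 1 w' = c 2 2 s1 + s2.sum fun a y => m a.1 2 1 y := congrArg Prod.fst hw'
    obtain ⟨w, hw⟩ := hE.e3 w' (by rw [h1]; exact qin_mem hI 2 1 s1 s2)
    obtain ⟨z, y, f1, f2⟩ := qin_step hI hR 2 0 s1 s2 w' h1 w hw
    refine ⟨(z, y), ?_⟩
    show (d' 2 1 z, Finsupp.mapRange.linearMap (d' 2 0) y) = (s1, s2)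
    rw [f1, f2]
  · obtain rfl : k = 1 := by omega
    obtain ⟨w', hw'⟩ := hB
    obtain ⟨s1, s2⟩ := s
    have h1 : d 1 2 w'.1 = c 1 3 s1 + s2.sum fun a y => m a.1 1 2 y := congrArg Prod.fst hw'
    obtain ⟨w, hw⟩ := hE.e2 w'.1 (by rw [h1]; exact qin_mem hI 1 2 s1 s2)
    obtain ⟨z, y, f1, f2⟩ := qin_step hI hR 1 1 s1 s2 w'.1 h1 w hw
    refine ⟨(z, y), ?_⟩
    show (d' 1 2 z, Finsupp.mapRange.linearMap (d' 1 1) y) = (s1, s2)
    rw [f1, f2]
  · obtain rfl : k = 0 := by omega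
    obtain ⟨s1, s2⟩ := s
    refine ⟨((0 : Γ F 1 3), (0 : Co X →₀ Γ F 1 2)), ?_⟩
    show (d' 0 3 0, Finsupp.mapRange.linearMap (d' 0 2) 0) = (s1, s2)
    have h1 : Subsingleton (Γ F 0 4) := inferInstanceAs (Subsingleton PUnit)
    have h2 : Subsingleton (Γ F 0 3) := inferInstanceAs (Subsingleton PUnit)
    have h3 : Subsingleton (Co X →₀ Γ F 0 3) := inferInstance
    rw [Subsingleton.elim (d' 0 3 0) s1,
      Subsingleton.elim (Finsupp.mapRange.linearMap (d' 0 2) 0) s2]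

end

end Pool.Agent.Helper19.HV
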