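import Pool.Agent.Helper19.HV.Curve
import Pool.Agent.Helper91.PL.A5

set_option autoImplicit false

open Polynomial

namespace Pool.Agent.Helper19.HV

noncomputable section

open PL
open scoped TensorProduct

theorem mTEN {G : Type} [Field G] (S : Submodule ℚ (ZP G)) (α : ZP G) :
    α ∈ LinearMap.ker (δ S) ↔ ∀ l : V G →ₗ[ℚ] ℚ,
      Finsupp.linearCombination ℚ (fun x => l (cl x) • (Finsupp.single x 1 : ZP G)) α ∈ S := by
  have key : ∀ l : V G →ₗ[ℚ] ℚ,
      TensorProduct.rid ℚ _ (LinearMap.lTensor (ZP G ⧸ S) l (δo S α)) =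
        S.mkQ (Finsupp.linearCombination ℚ (fun x : P1 G => l (cl x) •
          (Finsupp.single x 1 : ZP G)) α) := by
    intro l
    unfold δo
    rw [a5_lc, a5_lc]
    have := a5_lc (TensorProduct.rid ℚ (ZP G ⧸ S)).toLinearMap
      (fun x : P1 G => LinearMap.lTensor (ZP G ⧸ S) l
        (S.mkQ (Finsupp.single x 1) ⊗ₜ[ℚ] cl x)) α
    refine this.trans ?_
    congr 1
  rw [ker_δo, LinearMap.mem_ker]
  constructor
  · intro h l
    have h1 := key l
    rw [h, map_zero, map_zero] at h1
    rw [← Submodule.Quotient.mk_eq_zero, ← Submodule.mkQ_apply]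
    exact h1.symm
  · intro h
    apply a5_sep
    intro l
    rw [key l, Submodule.mkQ_apply, Submodule.Quotient.mk_eq_zero]
    exact h l

end

end Pool.Agent.Helper19.HV
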