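import Pool.Agent.Helper19.HV.XS

/-!
# Project HV: module Y3 (assembly)
-/

set_option autoImplicit false

namespace Pool.Agent.Helper19.HV

noncomputable section

open PL

private theorem ls_sub {F : Type} [Field F]
    {L M : P1 (RatFunc F) → (V (RatFunc F) →ₗ[ℚ] V (RatFunc F) →ₗ[ℚ] ℚ)} (hL : Ls L) (hM : Ls M) :
    Ls fun x => L x - M x where
  kil := by
    intro α hα
    have h : Finsupp.linearCombination ℚ (fun x => L x - M x) =
        Finsupp.linearCombination ℚ L - Finsupp.linearCombination ℚ M := by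
      apply Finsupp.lhom_ext
      intro x r
      rw [LinearMap.sub_apply, Finsupp.linearCombination_single, Finsupp.linearCombination_single,
        Finsupp.linearCombination_single, smul_sub]
    rw [h, LinearMap.sub_apply, hL.kil α hα, hM.kil α hα, sub_zero]
  alt := by
    intro x v
    rw [LinearMap.sub_apply, LinearMap.sub_apply, hL.alt x v, hM.alt x v, sub_zero]
  cst := by
    intro c u k
    rw [LinearMap.sub_apply, LinearMap.sub_apply, hL.cst c u k, hM.cst c u k, sub_zero]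

private theorem al2_neg {U : Type} [AddCommGroup U] [Module ℚ U] {A : U →ₗ[ℚ] U →ₗ[ℚ] ℚ}
    (h : Al2 A) (v w : U) : A v w = - A w v := by
  have h1 := h (v + w)
  simp only [map_add, LinearMap.add_apply, h v, h w, zero_add, add_zero] at h1
  exact eq_neg_of_add_eq_zero_right h1

private theorem al4_add {F : Type} [Field F] {A B : F4 F} (hA : Al4 A) (hB : Al4 B) : Al4 (A + B) := by
  refine ⟨fun v w z => ?_, fun v w z => ?_, fun v w z => ?_⟩
  · simp only [LinearMap.add_apply, hA.1 v w z, hB.1 v w z, add_zero]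
  · simp only [LinearMap.add_apply, hA.2.1 v w z, hB.2.1 v w z, add_zero]
  · simp only [LinearMap.add_apply, hA.2.2 v w z, hB.2.2 v w z, add_zero]

theorem mY3 {F : Type} [Field F]
    (hLAF : ∀ L4 : F4 F, (∀ v k l, L4 v v k l = 0) → (∀ v w k, L4 v w k k = 0) →
      (∀ (c d u : F) k, L4 (lg (RatFunc.C c)) (lg (RatFunc.C d)) (lg (RatFunc.C u)) k = 0) →
      Ls fun x => L4 (cl1 x) (cl x))
    (hA : ∀ {L : P1 (RatFunc F) → (V (RatFunc F) →ₗ[ℚ] V (RatFunc F) →ₗ[ℚ] ℚ)}, Ls L →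
      ∃ χ : F4 F, Al4 χ ∧
        (∀ (a b c : F) k, χ (lg (RatFunc.C a)) (lg (RatFunc.C b)) (lg (RatFunc.C c)) k = 0) ∧
        ∀ x (u w : F), L x (lg (RatFunc.C u)) (lg (RatFunc.C w)) =
          χ (cl1 x) (cl x) (lg (RatFunc.C u)) (lg (RatFunc.C w)))
    (hB : ∀ {L : P1 (RatFunc F) → (V (RatFunc F) →ₗ[ℚ] V (RatFunc F) →ₗ[ℚ] ℚ)}, Ls L →
      (∀ x k, L x (cl x) k = 0) →
      (∀ x (u w : F), L x (lg (RatFunc.C u)) (lg (RatFunc.C w)) = 0) →
      ∃ χ : F4 F, Al4 χ ∧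
        (∀ (a b c : F) k, χ (lg (RatFunc.C a)) (lg (RatFunc.C b)) (lg (RatFunc.C c)) k = 0) ∧
        ∀ x k (u : F), L x k (lg (RatFunc.C u)) = χ (cl1 x) (cl x) k (lg (RatFunc.C u)))
    (hCc : ∀ {L : P1 (RatFunc F) → (V (RatFunc F) →ₗ[ℚ] V (RatFunc F) →ₗ[ℚ] ℚ)}, Ls L →
      (∀ x k, L x (cl x) k = 0) → (∀ x (u : F) k, L x (lg (RatFunc.C u)) k = 0) →
      ∀ c, L (cst c) = 0)
    (hD : ∀ {L : P1 (RatFunc F) → (V (RatFunc F) →ₗ[ℚ] V (RatFunc F) →ₗ[ℚ] ℚ)}, Ls L →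
      (∀ x k, L x (cl x) k = 0) → (∀ x (u : F) k, L x (lg (RatFunc.C u)) k = 0) →
      (∀ c, L (cst c) = 0) →
      ∃ χ : F4 F, Al4 χ ∧
        (∀ (a b c : F) k, χ (lg (RatFunc.C a)) (lg (RatFunc.C b)) (lg (RatFunc.C c)) k = 0) ∧
        ∀ x k l, L x k l = χ (cl1 x) (cl x) k l)
    {L : P1 (RatFunc F) → (V (RatFunc F) →ₗ[ℚ] V (RatFunc F) →ₗ[ℚ] ℚ)} (hL : Ls L)
    (hcl : ∀ x k, L x (cl x) k = 0) :
    ∃ χ : F4 F, Al4 χ ∧
      (∀ (a b c : F) k, χ (lg (RatFunc.C a)) (lg (RatFunc.C b)) (lg (RatFunc.C c)) k = 0) ∧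
      ∀ x k l, L x k l = χ (cl1 x) (cl x) k l := by
  obtain ⟨χ2, a2, c2, e2⟩ := hA hL
  have hL1 := ls_sub hL (hLAF χ2 a2.1 a2.2.2 c2)
  have hcl1 : ∀ x k, (L x - χ2 (cl1 x) (cl x)) (cl x) k = 0 := by
    intro x k
    rw [LinearMap.sub_apply, LinearMap.sub_apply, hcl x k, a2.2.1, sub_zero]
  have hu1 : ∀ x (u w : F),
      (L x - χ2 (cl1 x) (cl x)) (lg (RatFunc.C u)) (lg (RatFunc.C w)) = 0 := by
    intro x u w
    rw [LinearMap.sub_apply, LinearMap.sub_apply, e2 x u w, sub_self]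
  obtain ⟨χ3, a3, c3, e3⟩ := hB hL1 hcl1 hu1
  have hL2 := ls_sub hL1 (hLAF χ3 a3.1 a3.2.2 c3)
  have hcl2 : ∀ x k, (L x - χ2 (cl1 x) (cl x) - χ3 (cl1 x) (cl x)) (cl x) k = 0 := by
    intro x k
    rw [LinearMap.sub_apply, LinearMap.sub_apply, hcl1 x k, a3.2.1, sub_zero]
  have hu2 : ∀ x (u : F) k,
      (L x - χ2 (cl1 x) (cl x) - χ3 (cl1 x) (cl x)) (lg (RatFunc.C u)) k = 0 := by
    intro x u k
    rw [al2_neg (hL2.alt x), LinearMap.sub_apply, LinearMap.sub_apply, e3 x k u, sub_self, neg_zero]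
  have hc2 := hCc hL2 hcl2 hu2
  obtain ⟨χ4, a4, c4, e4⟩ := hD hL2 hcl2 hu2 hc2
  refine ⟨χ2 + χ3 + χ4, al4_add (al4_add a2 a3) a4, ?_, ?_⟩
  · intro a b c k
    simp only [LinearMap.add_apply, c2 a b c k, c3 a b c k, c4 a b c k, add_zero]
  · intro x k l
    have h := e4 x k l
    simp only [LinearMap.add_apply, LinearMap.sub_apply] at h ⊢
    rw [← h]
    ring

end

end Pool.Agent.Helper19.HV
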